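import Mathlib
import Pool.Agent.helper65.GCA.Defs

/-! # mod:T1b: attractors -/

set_option autoImplicit false

namespace Pool.Agent.helper65.GCA

open Set Topology unitInterval

namespace T1b

theorem pullN_iff {F G : S2 → S2} {P Q : Set S2} (Φ : CurveClass P ≃ CurveClass Q)
    (hΦ : ∀ a b, Pull F P a b ↔ Pull G Q (Φ a) (Φ b)) (n : ℕ) :
    ∀ a b, PullN F P n a b ↔ PullN G Q n (Φ a) (Φ b) := by
  induction n with
  | zero => intro a b; exact Φ.injective.eq_iff.symm
  | succ n ih =>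
    intro a b
    constructor
    · rintro ⟨c, h1, h2⟩
      exact ⟨Φ c, (hΦ a c).mp h1, (ih c b).mp h2⟩
    · rintro ⟨c, h1, h2⟩
      refine ⟨Φ.symm c, (hΦ a _).mpr ?_, (ih _ b).mpr ?_⟩
      · rw [Φ.apply_symm_apply]; exact h1
      · rw [Φ.apply_symm_apply]; exact h2

theorem isFGA_iff {F G : S2 → S2} {P Q : Set S2} (Φ : CurveClass P ≃ CurveClass Q)
    (hΦ : ∀ a b, Pull F P a b ↔ Pull G Q (Φ a) (Φ b)) (A : Set (CurveClass P)) :
    IsFGA F P A ↔ IsFGA G Q (Φ '' A) := by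
  unfold IsFGA
  rw [Set.finite_image_iff Φ.injective.injOn]
  refine and_congr_right fun _ => ⟨fun h γ => ?_, fun h γ => ?_⟩
  · obtain ⟨N, hN⟩ := h (Φ.symm γ)
    refine ⟨N, fun n hn δ hδ => ⟨Φ.symm δ, hN n hn _ ?_, Φ.apply_symm_apply δ⟩⟩
    rw [pullN_iff Φ hΦ, Φ.apply_symm_apply, Φ.apply_symm_apply]
    exact hδ
  · obtain ⟨N, hN⟩ := h (Φ γ)
    refine ⟨N, fun n hn δ hδ => ?_⟩
    rw [pullN_iff Φ hΦ] at hδ
    obtain ⟨x, hx, hx2⟩ := hN n hn _ hδ
    rwa [← Φ.injective hx2]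

theorem attractor_eq {F G : S2 → S2} {P Q : Set S2} (Φ : CurveClass P ≃ CurveClass Q)
    (hΦ : ∀ a b, Pull F P a b ↔ Pull G Q (Φ a) (Φ b)) :
    attractor G Q = Φ '' attractor F P := by
  ext y
  unfold attractor
  rw [mem_sInter]
  constructor
  · intro h
    refine ⟨Φ.symm y, ?_, Φ.apply_symm_apply y⟩
    rw [mem_sInter]
    intro A hA
    obtain ⟨x, hx, hx2⟩ := h (Φ '' A) ((isFGA_iff Φ hΦ A).mp hA)
    rw [← hx2, Φ.symm_apply_apply]
    exact hx
  · rintro ⟨x, hx, rfl⟩ B hB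
    rw [mem_sInter] at hx
    have hB' : Φ '' (Φ ⁻¹' B) = B := Φ.image_preimage B
    have := hx (Φ ⁻¹' B) ((isFGA_iff Φ hΦ _).mpr (by rw [hB']; exact hB))
    exact this

end T1b

/-- mod:T1b. -/
theorem attractor_ncard_eq {F G : S2 → S2} {P Q : Set S2} (Φ : CurveClass P ≃ CurveClass Q)
    (hΦ : ∀ a b, Pull F P a b ↔ Pull G Q (Φ a) (Φ b)) :
    (attractor F P).ncard = (attractor G Q).ncard := by
  rw [T1b.attractor_eq Φ hΦ, Set.ncard_image_of_injective _ Φ.injective]

/-- mod:T1c. -/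
theorem isFGA_attractor {F : S2 → S2} {P : Set S2} (h : ∃ A, IsFGA F P A) :
    IsFGA F P (attractor F P) := by
  classical
  obtain ⟨A₀, hA₀⟩ := h
  have hsub : attractor F P ⊆ A₀ := sInter_subset_of_mem hA₀
  refine ⟨hA₀.1.subset hsub, fun γ => ?_⟩
  have hex : ∀ δ : CurveClass P, δ ∉ attractor F P → ∃ A, IsFGA F P A ∧ δ ∉ A := by
    intro δ hδ
    unfold attractor at hδ
    rw [mem_sInter] at hδ
    push Not at hδ
    exact hδ
  choose! B hB hBδ using hex
  have hN : ∀ δ : CurveClass P, δ ∉ attractor F P → ∃ N, ∀ n ≥ N, ∀ ε, PullN F P n γ ε →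
      ε ∈ B δ := fun δ hδ => (hB δ hδ).2 γ
  choose! N hN using hN
  obtain ⟨N₀, hN₀⟩ := hA₀.2 γ
  refine ⟨max N₀ (hA₀.1.toFinset.sup N), fun n hn δ hδ => ?_⟩
  by_contra hc
  have h1 := hN₀ n (le_trans (le_max_left _ _) hn) δ hδ
  have h2 : N δ ≤ n := by
    refine le_trans ?_ (le_trans (le_max_right _ _) hn)
    exact Finset.le_sup (f := N) (hA₀.1.mem_toFinset.mpr h1)
  exact hBδ δ hc (hN δ hc n h2 δ hδ)

/-- mod:T1d. -/
theorem attractor_ncard_empty (F : S2 → S2) : (attractor F ∅).ncard ≤ 2 := by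
  have hcar : ∀ J : ECurve ∅, J.carrier = univ := by
    intro J
    rw [eq_univ_iff_forall]
    intro x
    by_contra hx
    have := J.ess x hx
    rw [empty_inter, encard_empty] at this
    exact absurd this (by decide)
  have hsub : Subsingleton (Quotient (ECurve.setoid ∅)) := by
    constructor
    intro a b
    induction a using Quotient.inductionOn with
    | h J =>
      induction b using Quotient.inductionOn with
      | h K =>
        apply Quotient.sound
        change IsotopicIn ∅ J.carrier K.carrier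
        rw [hcar J, hcar K]
        exact IsotopicIn.refl _ _
  have h1 : (attractor F ∅) ⊆ insert none (range some) := by
    intro x _
    cases x with
    | none => exact mem_insert _ _
    | some a => exact mem_insert_of_mem _ ⟨a, rfl⟩
  have h2 : (range (some : Quotient (ECurve.setoid ∅) → CurveClass ∅)).Subsingleton := by
    rintro _ ⟨a, rfl⟩ _ ⟨b, rfl⟩
    rw [Subsingleton.elim a b]
  have h3 : (range (some : Quotient (ECurve.setoid ∅) → CurveClass ∅)).ncard ≤ 1 :=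
    (Set.ncard_le_one h2.finite).mpr fun a ha b hb => h2 ha hb
  calc (attractor F ∅).ncard ≤ (insert none (range some) : Set (CurveClass ∅)).ncard :=
        Set.ncard_le_ncard h1 (h2.finite.insert _)
    _ ≤ (range (some : Quotient (ECurve.setoid ∅) → CurveClass ∅)).ncard + 1 :=
        Set.ncard_insert_le _ _
    _ ≤ 2 := by omega

/-- mod:T1e. -/
theorem IsoPair.trans {F G K : S2 → S2} {P Q S : Set S2} (h : IsoPair F P G Q)
    (h' : IsoPair G Q K S) : IsoPair F P K S := by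
  obtain ⟨h₀, h₁, hF, ⟨H, hH, hH0, hH1, hHP⟩, hPQ⟩ := h
  obtain ⟨k₀, k₁, hG, ⟨H', hH', hH'0, hH'1, hH'Q⟩, hQS⟩ := h'
  refine ⟨h₀.trans k₀, h₁.trans k₁, ?_, ⟨fun t => (H t).trans (H' t), ?_, ?_, ?_, ?_⟩, ?_⟩
  · intro x
    simp only [Homeomorph.trans_apply]
    rw [hF, hG]
  · exact hH'.comp (continuous_fst.prodMk hH)
  · change (H 0).trans (H' 0) = _
    rw [hH0, hH'0]
  · change (H 1).trans (H' 1) = _
    rw [hH1, hH'1]
  · intro t x hx
    simp only [Homeomorph.trans_apply]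
    rw [hHP t x hx]
    apply hH'Q
    rw [← hPQ]
    exact ⟨x, hx, rfl⟩
  · rw [← hQS, ← hPQ, image_image]
    rfl

end Pool.Agent.helper65.GCA
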