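import Mathlib
import Pool.Agent.helper65.GCA.Defs

/-! # mod:T7a, lifting an isotopy through a family of branched coverings -/

set_option autoImplicit false

namespace Pool.Agent.helper65.GCA

open Set Topology unitInterval

/-- mod:T7a. -/
theorem exists_lift {X : Type*} [TopologicalSpace X] [T2Space X] [CompactSpace X]
    {ι κ : Type*} [Finite ι] [Finite κ]
    (R : I → X → X) (hR : Continuous fun y : I × X => R y.1 y.2)
    (p : I → ι → X) (hp : Continuous p) (q : I → κ → X) (hq : Continuous q)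
    (hqinj : ∀ s, Function.Injective (q s)) (L : κ → ι) (hL : ∀ s l, R s (q s l) = p s (L l))
    (hpre : ∀ s y, R s y ∈ range (p s) → y ∈ range (q s))
    (hcov : IsCoveringMapOn (fun y : I × X => (y.1, R y.1 y.2)) {y | y.2 ∉ range (p y.1)})
    (h : I → X ≃ₜ X) (hh : Continuous fun y : I × X => h y.1 y.2)
    (h0 : h 0 = Homeomorph.refl X) (hhp : ∀ s i, h s (p 0 i) = p s i) :
    ∃ K : I × X → X, ContinuousOn K {y | y.2 ∉ range (q 0)} ∧ (∀ w, K (0, w) = w) ∧
      (∀ s w, R s (K (s, w)) = h s (R 0 w)) ∧ (∀ s l, K (s, q 0 l) = q s l) ∧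
      ∀ s, Function.Bijective fun w => K (s, w) := by
  classical
  set f : I × X → I × X := fun y => (y.1, R y.1 y.2) with hf
  set S : Set (I × X) := {y | y.2 ∉ range (p y.1)} with hS
  have cov : IsCoveringMap (S.restrictPreimage f) := hcov.isCoveringMap_restrictPreimage
  -- facts on punctures
  have hmemS : ∀ s z, z ∉ range (p 0) → (s, h s z) ∈ S := by
    rintro s z hz ⟨i, hi⟩
    apply hz
    refine ⟨i, ?_⟩
    apply (h s).injective
    rw [hhp]
    exact hi
  have hR0 : ∀ w, w ∉ range (q 0) → R 0 w ∉ range (p 0) := fun w hw hw' => hw (hpre 0 w hw')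
  have hRq : ∀ s w, R s w ∉ range (p s) → w ∉ range (q s) := by
    rintro s w hw ⟨l, rfl⟩
    exact hw ⟨L l, (hL s l).symm⟩
  -- the homotopy
  let A := {w : X // w ∉ range (q 0)}
  let H : C(I × A, S) :=
    ⟨fun y => ⟨(y.1, h y.1 (R 0 y.2.1)), hmemS y.1 _ (hR0 _ y.2.2)⟩, by
      apply Continuous.subtype_mk
      refine continuous_fst.prodMk (hh.comp (continuous_fst.prodMk ?_))
      exact hR.comp (continuous_const.prodMk (continuous_subtype_val.comp continuous_snd))⟩
  let g : C(A, f ⁻¹' S) :=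
    ⟨fun a => ⟨(0, a.1), by
      have := hR0 a.1 a.2
      exact this⟩, by
      apply Continuous.subtype_mk
      exact continuous_const.prodMk continuous_subtype_val⟩
  have H0 : ∀ a, H (0, a) = S.restrictPreimage f (g a) := by
    intro a
    apply Subtype.ext
    change ((0 : I), h 0 (R 0 a.1)) = (0, R 0 a.1)
    rw [h0]
    rfl
  let Γ := cov.liftHomotopy H g H0
  have hΓ : ∀ s a, f (Γ (s, a)).1 = (s, h s (R 0 a.1)) := by
    intro s a
    have := congrFun (cov.liftHomotopy_lifts H g H0) (s, a)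
    exact congrArg Subtype.val this
  have hΓ1 : ∀ s a, (Γ (s, a)).1.1 = s := fun s a => congrArg Prod.fst (hΓ s a)
  have hΓ2 : ∀ s a, R s (Γ (s, a)).1.2 = h s (R 0 a.1) := by
    intro s a
    have := congrArg Prod.snd (hΓ s a)
    change R (Γ (s, a)).1.1 (Γ (s, a)).1.2 = _ at this
    rwa [hΓ1] at this
  have hΓ0 : ∀ a, Γ (0, a) = g a := fun a => cov.liftHomotopy_zero H g H0 a
  let K : I × X → X := fun y =>
    if hw : y.2 ∉ range (q 0) then (Γ (y.1, ⟨y.2, hw⟩)).1.2
    else q y.1 (Classical.choose (not_not.mp hw))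
  have hKout : ∀ s (a : A), K (s, a.1) = (Γ (s, a)).1.2 := by
    intro s a
    change (if hw : a.1 ∉ range (q 0) then (Γ (s, ⟨a.1, hw⟩)).1.2 else _) = _
    rw [dif_pos a.2]
  have hKin : ∀ s l, K (s, q 0 l) = q s l := by
    intro s l
    have hw : ¬ (q 0 l ∉ range (q 0)) := not_not.mpr ⟨l, rfl⟩
    change (if hw : q 0 l ∉ range (q 0) then (Γ (s, ⟨q 0 l, hw⟩)).1.2
      else q s (Classical.choose (not_not.mp hw))) = _
    rw [dif_neg hw]
    have := Classical.choose_spec (not_not.mp hw)
    rw [hqinj 0 this]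
  have hKR : ∀ s w, R s (K (s, w)) = h s (R 0 w) := by
    intro s w
    by_cases hw : w ∉ range (q 0)
    · have := hKout s ⟨w, hw⟩
      rw [show K (s, w) = _ from this]
      exact hΓ2 s ⟨w, hw⟩
    · obtain ⟨l, rfl⟩ := not_not.mp hw
      rw [hKin, hL, hL, hhp]
  have hKnot : ∀ s (a : A), K (s, a.1) ∉ range (q s) := by
    intro s a
    apply hRq
    rw [hKR]
    exact hmemS s _ (hR0 _ a.2)
  refine ⟨K, ?_, ?_, hKR, hKin, fun s => ⟨?_, ?_⟩⟩
  · rw [continuousOn_iff_continuous_domRestrict]
    have : ({y : I × X | y.2 ∉ range (q 0)}).domRestrict K =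
        fun y => (Γ (y.1.1, ⟨y.1.2, y.2⟩)).1.2 := by
      funext y
      exact hKout y.1.1 ⟨y.1.2, y.2⟩
    rw [this]
    refine continuous_snd.comp (continuous_subtype_val.comp (Γ.continuous.comp ?_))
    refine (continuous_fst.comp continuous_subtype_val).prodMk ?_
    exact Continuous.subtype_mk (continuous_snd.comp continuous_subtype_val) _
  · intro w
    by_cases hw : w ∉ range (q 0)
    · have := hKout 0 ⟨w, hw⟩
      rw [show K (0, w) = _ from this, hΓ0]
      rfl
    · obtain ⟨l, rfl⟩ := not_not.mp hw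
      exact hKin 0 l
  · intro w w' hww
    change K (s, w) = K (s, w') at hww
    by_cases hw : w ∉ range (q 0) <;> by_cases hw' : w' ∉ range (q 0)
    · have e1 := hKR s w
      have e2 := hKR s w'
      rw [hww, e2] at e1
      have e3 : R 0 w' = R 0 w := (h s).injective e1
      have hc : Continuous fun u : I => Γ (u, ⟨w, hw⟩) :=
        Γ.continuous.comp (continuous_id.prodMk continuous_const)
      have hc' : Continuous fun u : I => Γ (u, ⟨w', hw'⟩) :=
        Γ.continuous.comp (continuous_id.prodMk continuous_const)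
      have hs : Γ (s, ⟨w, hw⟩) = Γ (s, ⟨w', hw'⟩) := by
        apply Subtype.ext
        apply Prod.ext
        · rw [hΓ1, hΓ1]
        · rw [← hKout s ⟨w, hw⟩, ← hKout s ⟨w', hw'⟩]
          exact hww
      have hcomp : (S.restrictPreimage f) ∘ (fun u : I => Γ (u, ⟨w, hw⟩)) =
          (S.restrictPreimage f) ∘ (fun u : I => Γ (u, ⟨w', hw'⟩)) := by
        funext u
        apply Subtype.ext
        change f (Γ (u, ⟨w, hw⟩)).1 = f (Γ (u, ⟨w', hw'⟩)).1
        rw [hΓ, hΓ, e3]
      have := congrFun (cov.eq_of_comp_eq hc hc' hcomp s hs) 0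
      change Γ (0, ⟨w, hw⟩) = Γ (0, ⟨w', hw'⟩) at this
      rw [hΓ0, hΓ0] at this
      exact congrArg (fun y => y.1.2) this
    · obtain ⟨l, rfl⟩ := not_not.mp hw'
      exfalso
      apply hKnot s ⟨w, hw⟩
      rw [show K (s, w) = _ from hww, hKin]
      exact ⟨l, rfl⟩
    · obtain ⟨l, rfl⟩ := not_not.mp hw
      exfalso
      apply hKnot s ⟨w', hw'⟩
      rw [show K (s, w') = _ from hww.symm, hKin]
      exact ⟨l, rfl⟩
    · obtain ⟨l, rfl⟩ := not_not.mp hw
      obtain ⟨l', rfl⟩ := not_not.mp hw'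
      rw [hKin, hKin] at hww
      rw [hqinj s hww]
  · intro y
    by_cases hy : y ∈ range (q s)
    · obtain ⟨l, rfl⟩ := hy
      exact ⟨q 0 l, hKin s l⟩
    · have hRy : R s y ∉ range (p s) := fun hc => hy (hpre s y hc)
      set z := (h s).symm (R s y) with hz
      have hsz : h s z = R s y := by rw [hz]; exact (h s).apply_symm_apply _
      have hz0 : z ∉ range (p 0) := by
        rintro ⟨i, hi⟩
        apply hRy
        rw [← hsz, ← hi, hhp]
        exact ⟨i, rfl⟩
      let δ : C(I, S) := ⟨fun u => ⟨(s * σ u, h (s * σ u) z), hmemS _ _ hz0⟩, by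
        apply Continuous.subtype_mk
        have hc : Continuous fun u : I => s * σ u := continuous_const.mul continuous_symm
        exact hc.prodMk (hh.comp (hc.prodMk continuous_const))⟩
      let e : f ⁻¹' S := ⟨(s, y), hRy⟩
      have hδ0 : δ 0 = S.restrictPreimage f e := by
        apply Subtype.ext
        change (s * σ 0, h (s * σ 0) z) = (s, R s y)
        rw [symm_zero, mul_one, hsz]
      obtain ⟨Δ, hΔ1, hΔ2⟩ := cov.exists_path_lifts δ e hδ0
      have hΔ : ∀ u, f (Δ u).1 = (s * σ u, h (s * σ u) z) := by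
        intro u
        exact congrArg Subtype.val (congrFun hΔ1 u)
      have hΔ1' := hΔ 1
      rw [symm_one, mul_zero, h0] at hΔ1'
      have hfst : (Δ 1).1.1 = 0 := congrArg Prod.fst hΔ1'
      have hsnd : R 0 (Δ 1).1.2 = z := by
        have := congrArg Prod.snd hΔ1'
        change R (Δ 1).1.1 (Δ 1).1.2 = z at this
        rwa [hfst] at this
      have hw : (Δ 1).1.2 ∉ range (q 0) := by
        apply hRq
        rw [hsnd]
        exact hz0
      set w := (Δ 1).1.2 with hwdef
      refine ⟨w, ?_⟩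
      change K (s, w) = y
      rw [show K (s, w) = _ from hKout s ⟨w, hw⟩]
      have hc : Continuous fun u : I => Γ (s * σ u, ⟨w, hw⟩) :=
        Γ.continuous.comp ((continuous_const.mul continuous_symm).prodMk continuous_const)
      have hcomp : (S.restrictPreimage f) ∘ (fun u : I => Γ (s * σ u, ⟨w, hw⟩)) =
          (S.restrictPreimage f) ∘ Δ := by
        funext u
        apply Subtype.ext
        change f (Γ (s * σ u, ⟨w, hw⟩)).1 = f (Δ u).1
        rw [hΓ, hΔ, hsnd]
      have h1 : Γ (s * σ 1, ⟨w, hw⟩) = Δ 1 := by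
        rw [symm_one, mul_zero, hΓ0]
        apply Subtype.ext
        apply Prod.ext
        · exact hfst.symm
        · rfl
      have := congrFun (cov.eq_of_comp_eq hc Δ.continuous hcomp 1 h1) 0
      change Γ (s * σ 0, ⟨w, hw⟩) = Δ 0 at this
      rw [symm_zero, mul_one, hΔ2] at this
      exact congrArg (fun y => y.1.2) this

end Pool.Agent.helper65.GCA
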