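import Pool.Agent.helper97.GS4.Fin

/-!
# Local orthogonal mates of random graphs: the exact rate

Two graphs with adjacency matrices `A` and `B` are cospectral exactly when `Qᵀ A Q = B` for a real
orthogonal matrix `Q`. We consider the graphs `G` which have a non-isomorphic mate `H` given by a
matrix `Q` with at most `k` columns that do not have exactly one nonzero entry. For
`4 ≤ k ≤ √n / 4` their proportion is asymptotic to `n ^ 4 / (12 * 2 ^ n)`, which does not depend
on `k` and is reached by the switching of Godsil and McKay with four vertices.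
-/

set_option autoImplicit false

namespace Pool.Agent.Results.MP_abccb5_co.SwitchingRate

open scoped Classical Matrix
open Filter Topology

theorem result (k : ℕ → ℕ) (hk : ∀ᶠ n in atTop, 4 ≤ k n ∧ 16 * (k n) ^ 2 ≤ n) :
    Tendsto (fun n : ℕ =>
      (Nat.card {G : SimpleGraph (Fin n) //
        ∃ (H : SimpleGraph (Fin n)) (Q : Matrix (Fin n) (Fin n) ℝ), ¬ Nonempty (G ≃g H) ∧
          Qᵀ * Q = 1 ∧ Qᵀ * G.adjMatrix ℝ * Q = H.adjMatrix ℝ ∧
          {j | {i | Q i j ≠ 0}.ncard ≠ 1}.ncard ≤ k n} : ℝ) /
        (Nat.card (SimpleGraph (Fin n)) : ℝ) * (12 * 2 ^ n / (n : ℝ) ^ 4))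
      atTop (𝓝 1) :=
  GS4.pr_tendsto hk

end Pool.Agent.Results.MP_abccb5_co.SwitchingRate
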